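import Mathlib

/-! # Project HV, job F2 (helper150): the test function -/

set_option autoImplicit false

open MeasureTheory Set Metric Filter Topology
open scoped InnerProductSpace ContDiff

namespace Pool.Agent.Q150.HV

/-- the derivative of the basic cut-off -/
noncomputable def dE (x : ℝ) : ℝ := (x⁻¹) ^ 2 * expNegInvGlue x

theorem hasDerivAt_E (x : ℝ) : HasDerivAt expNegInvGlue (dE x) x := by
  have h := expNegInvGlue.hasDerivAt_polynomial_eval_inv_mul (1 : Polynomial ℝ) x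
  simpa [dE] using h

theorem dE_nonneg (x : ℝ) : 0 ≤ dE x :=
  mul_nonneg (sq_nonneg _) (expNegInvGlue.nonneg x)

theorem dE_zero {x : ℝ} (hx : x ≤ 0) : dE x = 0 := by
  rw [dE, expNegInvGlue.zero_of_nonpos hx, mul_zero]

theorem E_le_one (x : ℝ) : expNegInvGlue x ≤ 1 := by
  unfold expNegInvGlue
  split_ifs with h
  · exact zero_le_one
  · push Not at h
    rw [Real.exp_le_one_iff]
    have : 0 < x⁻¹ := inv_pos.2 h
    linarith

theorem E_ge {x : ℝ} (hx : 1 ≤ x) : Real.exp (-1) ≤ expNegInvGlue x := by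
  have h1 := expNegInvGlue.monotone hx
  refine le_trans (le_of_eq ?_) h1
  unfold expNegInvGlue
  norm_num

theorem dE_ge {x : ℝ} (hx : 1 ≤ x) (hx3 : x ≤ 3) : Real.exp (-1) / 9 ≤ dE x := by
  have h1 := E_ge hx
  have h2 : (1 / 9 : ℝ) ≤ (x⁻¹) ^ 2 := by
    rw [inv_pow, ← one_div]
    apply one_div_le_one_div_of_le (by positivity)
    nlinarith
  calc Real.exp (-1) / 9 = 1 / 9 * Real.exp (-1) := by ring
    _ ≤ (x⁻¹) ^ 2 * expNegInvGlue x :=
      mul_le_mul h2 h1 (Real.exp_pos _).le (sq_nonneg _)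

/-- the bump function on the line -/
noncomputable def tb : ContDiffBump (0 : ℝ) := ⟨1, 2, by norm_num, by norm_num⟩

theorem tb_bd : ∃ K : ℝ, 0 < K ∧ ∀ x, |deriv (tb : ℝ → ℝ) x| ≤ K := by
  have hc : Continuous (deriv (tb : ℝ → ℝ)) :=
    (tb.contDiff (n := 1)).continuous_deriv le_rfl
  obtain ⟨K, hK⟩ := (tb.hasCompactSupport.deriv).exists_bound_of_continuous hc
  exact ⟨max K 1, lt_max_of_lt_right one_pos, fun x => (hK x).trans (le_max_left _ _)⟩

theorem tb_hasDerivAt (x : ℝ) : HasDerivAt (tb : ℝ → ℝ) (deriv (tb : ℝ → ℝ) x) x :=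
  ((tb.contDiff (n := 1)).differentiable (by simp) x).hasDerivAt

theorem tb_deriv_zero {x : ℝ} (hx : 2 < |x|) : tb x = 0 :=
  tb.zero_of_le_dist (by rw [Real.dist_eq, sub_zero]; exact hx.le)

abbrev V := EuclideanSpace ℝ (Fin 3)

variable (x e : V) (r R1 C0 : ℝ)

/-- height -/
noncomputable def hh (y : V) : ℝ := ⟪e, y - x⟫_ℝ
/-- the quadratic function -/
noncomputable def qq (y : V) : ℝ :=
  (2 * r + C0 * (hh x e y + 2 * r)) ^ 2 - ‖y - x‖ ^ 2 + hh x e y ^ 2

/-- the test function -/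
noncomputable def zt (y : V) : ℝ :=
  expNegInvGlue (hh x e y / r + 2) * tb (hh x e y / R1) * expNegInvGlue (qq x e r C0 y / r ^ 2)

theorem hh_contDiff : ContDiff ℝ ∞ (hh x e) := by
  unfold hh
  exact contDiff_const.inner ℝ (contDiff_id.sub contDiff_const)

theorem zt_contDiff : ContDiff ℝ ∞ (zt x e r R1 C0) := by
  have h1 := hh_contDiff x e
  have h2 : ContDiff ℝ ∞ (qq x e r C0) := by
    unfold qq
    have h3 : ContDiff ℝ ∞ (fun y : V => ‖y - x‖ ^ 2) :=
      (contDiff_id.sub contDiff_const).norm_sq ℝ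
    exact (((contDiff_const.add (contDiff_const.mul (h1.add contDiff_const))).pow 2).sub h3).add
      (h1.pow 2)
  unfold zt
  exact (((expNegInvGlue.contDiff (n := ⊤)).comp ((h1.div_const r).add contDiff_const)).mul
    ((tb.contDiff (n := ⊤)).comp (h1.div_const R1))).mul
    ((expNegInvGlue.contDiff (n := ⊤)).comp (h2.div_const _))

/-- the derivative of the test function -/
theorem zt_fderiv (y w : V) :
    fderiv ℝ (zt x e r R1 C0) y w =
      (dE (hh x e y / r + 2) * (⟪e, w⟫_ℝ / r) * tb (hh x e y / R1) +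
        expNegInvGlue (hh x e y / r + 2) * (deriv (tb : ℝ → ℝ) (hh x e y / R1) *
          (⟪e, w⟫_ℝ / R1))) * expNegInvGlue (qq x e r C0 y / r ^ 2) +
      expNegInvGlue (hh x e y / r + 2) * tb (hh x e y / R1) *
        (dE (qq x e r C0 y / r ^ 2) * ((2 * (2 * r + C0 * (hh x e y + 2 * r)) * (C0 * ⟪e, w⟫_ℝ)
          - 2 * ⟪y - x, w⟫_ℝ + 2 * hh x e y * ⟪e, w⟫_ℝ) / r ^ 2)) := by
  -- derivative along a line
  have hl : HasDerivAt (fun s : ℝ => y + s • w) w 0 := by
    simpa using ((hasDerivAt_id (0:ℝ)).smul_const w).const_add y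
  have hd : DifferentiableAt ℝ (zt x e r R1 C0) (y + (0:ℝ) • w) :=
    (zt_contDiff x e r R1 C0).differentiable (by simp) _
  have h0 := hd.hasFDerivAt.comp_hasDerivAt (0:ℝ) hl
  rw [zero_smul, add_zero] at h0
  have hhs : HasDerivAt (fun s : ℝ => hh x e (y + s • w)) ⟪e, w⟫_ℝ 0 := by
    have e1 : (fun s : ℝ => hh x e (y + s • w)) = fun s => hh x e y + s * ⟪e, w⟫_ℝ := by
      funext s
      unfold hh
      rw [show y + s • w - x = (y - x) + s • w by abel, inner_add_right, inner_smul_right]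
    rw [e1]
    simpa using ((hasDerivAt_id (0:ℝ)).mul_const ⟪e, w⟫_ℝ).const_add (hh x e y)
  have hns : HasDerivAt (fun s : ℝ => ‖y + s • w - x‖ ^ 2) (2 * ⟪y - x, w⟫_ℝ) 0 := by
    have h1 := ((hl.sub_const x).norm_sq)
    simpa using h1
  have hqs : HasDerivAt (fun s : ℝ => qq x e r C0 (y + s • w))
      (2 * (2 * r + C0 * (hh x e y + 2 * r)) * (C0 * ⟪e, w⟫_ℝ)
          - 2 * ⟪y - x, w⟫_ℝ + 2 * hh x e y * ⟪e, w⟫_ℝ) 0 := by
    have h1 := ((((hhs.add_const (2 * r)).const_mul C0).const_add (2 * r)).pow 2).sub hns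
    have h2 := h1.add (hhs.pow 2)
    have e2 : (fun s : ℝ => qq x e r C0 (y + s • w)) =
        ((fun s : ℝ => 2 * r + C0 * (hh x e (y + s • w) + 2 * r)) ^ 2
          - (fun s : ℝ => ‖y + s • w - x‖ ^ 2)) + (fun s : ℝ => hh x e (y + s • w)) ^ 2 := by
      funext s
      simp [qq]
    rw [e2]
    simpa using h2
  have ha := (hasDerivAt_E (hh x e (y + (0:ℝ) • w) / r + 2)).comp (0:ℝ)
    ((hhs.div_const r).add_const 2)
  have hb := (tb_hasDerivAt (hh x e (y + (0:ℝ) • w) / R1)).comp (0:ℝ) (hhs.div_const R1)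
  have hc := (hasDerivAt_E (qq x e r C0 (y + (0:ℝ) • w) / r ^ 2)).comp (0:ℝ)
    (hqs.div_const (r ^ 2))
  have h3 := (ha.mul hb).mul hc
  have h4 := h0.unique h3
  simp only [Function.comp_apply, zero_smul, add_zero, Pi.mul_apply] at h4
  rw [h4]

variable {x e r R1 C0}

theorem zt_support (hr : 0 < r) (hR : 2 * r ≤ R1) (hC : 1 ≤ C0) {y : V}
    (hy : zt x e r R1 C0 y ≠ 0) : ‖y - x‖ ≤ 5 * (C0 * R1) := by
  unfold zt at hy
  have h1 : expNegInvGlue (hh x e y / r + 2) ≠ 0 := fun h => hy (by rw [h]; ring)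
  have h2 : tb (hh x e y / R1) ≠ 0 := fun h => hy (by rw [h]; ring)
  have h3 : expNegInvGlue (qq x e r C0 y / r ^ 2) ≠ 0 := fun h => hy (by rw [h]; ring)
  have hR1 : 0 < R1 := by linarith
  have a1 : 0 < hh x e y / r + 2 := by
    by_contra h
    exact h1 (expNegInvGlue.zero_of_nonpos (not_lt.1 h))
  have a2 : |hh x e y / R1| < 2 := by
    by_contra h
    exact h2 (tb.zero_of_le_dist (by rw [Real.dist_eq, sub_zero]; exact not_lt.1 h))
  have a3 : 0 < qq x e r C0 y / r ^ 2 := by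
    by_contra h
    exact h3 (expNegInvGlue.zero_of_nonpos (not_lt.1 h))
  have b1 : -(2 * r) < hh x e y := by
    have : -2 < hh x e y / r := by linarith
    rw [lt_div_iff₀ hr] at this
    linarith
  have b2 : |hh x e y| < 2 * R1 := by
    rwa [abs_div, abs_of_pos hR1, div_lt_iff₀ hR1] at a2
  have b3 : 0 < qq x e r C0 y := by
    have := mul_pos a3 (pow_pos hr 2)
    rwa [div_mul_cancel₀ _ (pow_pos hr 2).ne'] at this
  unfold qq at b3
  obtain ⟨c1, c2⟩ := abs_lt.1 b2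
  set h := hh x e y
  have d1 : 0 < 2 * r + C0 * (h + 2 * r) := by
    have : 0 < C0 * (h + 2 * r) := mul_pos (by linarith) (by linarith)
    linarith
  have d2 : 2 * r + C0 * (h + 2 * r) ≤ 4 * (C0 * R1) := by
    have h5 : C0 * (h + 2 * r) ≤ C0 * (3 * R1) :=
      mul_le_mul_of_nonneg_left (by linarith) (by linarith)
    have h6 : R1 ≤ C0 * R1 := le_mul_of_one_le_left hR1.le hC
    linarith
  have d3 : h ^ 2 ≤ 4 * (C0 * R1) ^ 2 := by
    have h6 : R1 ≤ C0 * R1 := le_mul_of_one_le_left hR1.le hC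
    have h7 : |h| ≤ 2 * (C0 * R1) := by linarith
    have := pow_le_pow_left₀ (abs_nonneg h) h7 2
    rw [sq_abs] at this
    linarith
  have d4 : (2 * r + C0 * (h + 2 * r)) ^ 2 ≤ (4 * (C0 * R1)) ^ 2 := pow_le_pow_left₀ d1.le d2 2
  have d5 : ‖y - x‖ ^ 2 ≤ (5 * (C0 * R1)) ^ 2 := by nlinarith
  exact le_of_sq_le_sq d5 (by positivity)

theorem zt_lower {K : ℝ} (hK : ∀ u, |deriv (tb : ℝ → ℝ) u| ≤ K) (he : ‖e‖ = 1) (hr : 0 < r)
    (hR : 2 * r ≤ R1) (hC : 1 ≤ C0) {y w : V} (hw : ‖w‖ ≤ C0 * ⟪e, w⟫_ℝ) :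
    (if ‖y - x‖ < r then Real.exp (-1) ^ 2 / 9 / r * ⟪e, w⟫_ℝ else 0) - K / R1 * ‖w‖ ≤
      fderiv ℝ (zt x e r R1 C0) y w := by
  rw [zt_fderiv]
  have hR1 : 0 < R1 := by linarith
  have hC0 : 0 < C0 := by linarith
  have hK0 : 0 ≤ K := (abs_nonneg _).trans (hK 0)
  have ha0 : 0 ≤ ⟪e, w⟫_ℝ := by
    by_contra h
    push Not at h
    have := mul_neg_of_pos_of_neg hC0 h
    linarith [norm_nonneg w]
  have ha1 : ⟪e, w⟫_ℝ ≤ ‖w‖ := by
    have := real_inner_le_norm e w
    rwa [he, one_mul] at this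
  set h := hh x e y with hh'
  set q := qq x e r C0 y with hq'
  set a := ⟪e, w⟫_ℝ with ha'
  have E1 := expNegInvGlue.nonneg (h / r + 2)
  have E1' := E_le_one (h / r + 2)
  have E2 := expNegInvGlue.nonneg (q / r ^ 2)
  have E2' := E_le_one (q / r ^ 2)
  have t1 : 0 ≤ tb (h / R1) := tb.nonneg
  -- first term
  have T1 : (if ‖y - x‖ < r then Real.exp (-1) ^ 2 / 9 / r * a else 0) ≤
      dE (h / r + 2) * (a / r) * tb (h / R1) * expNegInvGlue (q / r ^ 2) := by
    split_ifs with hy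
    · have hhy : |h| ≤ ‖y - x‖ := by
        have := abs_real_inner_le_norm e (y - x)
        rwa [he, one_mul] at this
      have hhr : |h| ≤ r := hhy.trans hy.le
      obtain ⟨c1, c2⟩ := abs_le.1 hhr
      have f1 : tb (h / R1) = 1 := by
        apply tb.one_of_mem_closedBall
        rw [mem_closedBall, Real.dist_eq, sub_zero, abs_div, abs_of_pos hR1, div_le_iff₀ hR1]
        change |h| ≤ 1 * R1
        linarith
      have f2 : Real.exp (-1) / 9 ≤ dE (h / r + 2) := by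
        apply dE_ge
        · have : -1 ≤ h / r := by rw [le_div_iff₀ hr]; linarith
          linarith
        · have : h / r ≤ 1 := by rw [div_le_iff₀ hr]; linarith
          linarith
      have f3 : Real.exp (-1) ≤ expNegInvGlue (q / r ^ 2) := by
        apply E_ge
        rw [le_div_iff₀ (pow_pos hr 2), hq']
        unfold qq
        rw [← hh']
        have g1 : 2 * r ≤ 2 * r + C0 * (h + 2 * r) := by
          have : 0 ≤ C0 * (h + 2 * r) := mul_nonneg hC0.le (by linarith)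
          linarith
        have g2 : (2 * r) ^ 2 ≤ (2 * r + C0 * (h + 2 * r)) ^ 2 :=
          pow_le_pow_left₀ (by linarith) g1 2
        have g3 : ‖y - x‖ ^ 2 ≤ r ^ 2 := pow_le_pow_left₀ (norm_nonneg _) hy.le 2
        nlinarith [sq_nonneg h]
      rw [f1, mul_one]
      calc Real.exp (-1) ^ 2 / 9 / r * a = Real.exp (-1) / 9 * (a / r) * Real.exp (-1) := by ring
        _ ≤ dE (h / r + 2) * (a / r) * expNegInvGlue (q / r ^ 2) :=
          mul_le_mul (mul_le_mul_of_nonneg_right f2 (div_nonneg ha0 hr.le)) f3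
            (Real.exp_pos _).le (mul_nonneg (dE_nonneg _) (div_nonneg ha0 hr.le))
    · exact mul_nonneg (mul_nonneg (mul_nonneg (dE_nonneg _) (div_nonneg ha0 hr.le)) t1) E2
  -- second term
  have T2 : -(K / R1 * ‖w‖) ≤ expNegInvGlue (h / r + 2) * (deriv (tb : ℝ → ℝ) (h / R1) *
      (a / R1)) * expNegInvGlue (q / r ^ 2) := by
    have g1 : |expNegInvGlue (h / r + 2) * (deriv (tb : ℝ → ℝ) (h / R1) *
      (a / R1)) * expNegInvGlue (q / r ^ 2)| ≤ 1 * (K * (‖w‖ / R1)) * 1 := by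
      rw [abs_mul, abs_mul, abs_mul, abs_of_nonneg E1, abs_of_nonneg E2,
        abs_of_nonneg (div_nonneg ha0 hR1.le)]
      gcongr
      exact hK _
    have g2 := (abs_le.1 g1).1
    calc -(K / R1 * ‖w‖) = -(1 * (K * (‖w‖ / R1)) * 1) := by ring
      _ ≤ _ := g2
  -- third term
  have T3 : 0 ≤ expNegInvGlue (h / r + 2) * tb (h / R1) *
        (dE (q / r ^ 2) * ((2 * (2 * r + C0 * (h + 2 * r)) * (C0 * a)
          - 2 * ⟪y - x, w⟫_ℝ + 2 * h * a) / r ^ 2)) := by
    by_cases c1 : h / r + 2 ≤ 0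
    · rw [expNegInvGlue.zero_of_nonpos c1]; simp
    by_cases c2 : q / r ^ 2 ≤ 0
    · rw [dE_zero c2]; simp
    push Not at c1 c2
    have b1 : -(2 * r) < h := by
      have : -2 < h / r := by linarith
      rw [lt_div_iff₀ hr] at this
      linarith
    have b3 : 0 < q := by
      have := mul_pos c2 (pow_pos hr 2)
      rwa [div_mul_cancel₀ _ (pow_pos hr 2).ne'] at this
    have d1 : 0 < 2 * r + C0 * (h + 2 * r) := by
      have : 0 < C0 * (h + 2 * r) := mul_pos (by linarith) (by linarith)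
      linarith
    set m := 2 * r + C0 * (h + 2 * r) with hm
    have hqm : q = m ^ 2 - ‖y - x‖ ^ 2 + h ^ 2 := rfl
    set p : V := (y - x) - h • e with hp
    have hp2 : ‖p‖ ^ 2 = ‖y - x‖ ^ 2 - h ^ 2 := by
      rw [hp, norm_sub_sq_real, inner_smul_right, norm_smul, he, mul_one, Real.norm_eq_abs, sq_abs]
      have : ⟪y - x, e⟫_ℝ = h := real_inner_comm _ _
      rw [this]; ring
    have hpm : ‖p‖ ≤ m := by
      apply le_of_sq_le_sq _ d1.le
      rw [hp2]; linarith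
    have hpw : ⟪p, w⟫_ℝ = ⟪y - x, w⟫_ℝ - h * a := by
      rw [hp, inner_sub_left, inner_smul_left]; simp [ha']
    have hpw' : ⟪p, w⟫_ℝ ≤ m * (C0 * a) :=
      (real_inner_le_norm p w).trans (mul_le_mul hpm hw (norm_nonneg _) d1.le)
    have : 0 ≤ 2 * m * (C0 * a) - 2 * ⟪y - x, w⟫_ℝ + 2 * h * a := by linarith
    exact mul_nonneg (mul_nonneg E1 t1) (mul_nonneg (dE_nonneg _) (div_nonneg this (sq_nonneg _)))
  rw [add_mul]
  linarith

end Pool.Agent.Q150.HV
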