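import Pool.Agent.Q67.HV.Defs
import Pool.Agent.Q150.HV.F2a

/-! # Project HV, job F2 (helper150): the flux lemma for a single cone -/

set_option autoImplicit false

open MeasureTheory Set Metric Filter Topology
open scoped InnerProductSpace ContDiff
open H772R2.NS

namespace Pool.Agent.Q150.HV

theorem sum_ev (f : E3 →L[ℝ] ℝ) (w : E3) : ∑ j, w j * f (ev j) = f w := by
  have h : w = ∑ j, w j • ev j := by
    ext i
    simp [Pi.single_apply]
  conv_rhs => rw [h, map_sum]
  simp [smul_eq_mul]

theorem t_F2 : Pool.Agent.Q67.HV.StmF2 := by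
  intro κ hκ hκ1
  obtain ⟨K, hK0, hK⟩ := tb_bd
  set C0 : ℝ := 1 / κ with hC0
  have hC1 : 1 ≤ C0 := by rw [hC0, le_div_iff₀ hκ]; linarith
  have hCp : 0 < C0 := by linarith
  set c : ℝ := Real.exp (-1) ^ 2 / 9 with hc
  have hcp : 0 < c := by positivity
  refine ⟨8 * C0 ^ 2 * K / c + 16 * C0, by positivity, ?_⟩
  intro W x e R hR he hW hcone hdiv r hr hrR
  have hWn : 0 ≤ ∫ y in ball x R, ‖W y‖ := integral_nonneg fun _ => norm_nonneg _
  set R1 : ℝ := R / (8 * C0) with hR1
  have hR1p : 0 < R1 := by positivity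
  by_cases hcase : 2 * r ≤ R1
  swap
  · -- large radii
    push Not at hcase
    have h1 : ∫ y in ball x r, ‖W y‖ ≤ ∫ y in ball x R, ‖W y‖ :=
      setIntegral_mono_set hW.norm (Filter.Eventually.of_forall fun _ => norm_nonneg _)
        (Filter.Eventually.of_forall (ball_subset_ball hrR))
    have h2 : 1 ≤ 16 * C0 * (r / R) := by
      have h3 : R < 2 * r * (8 * C0) := by rwa [hR1, div_lt_iff₀ (by positivity)] at hcase
      rw [mul_div_assoc', le_div_iff₀ hR]
      linarith
    have h3 : 0 ≤ 8 * C0 ^ 2 * K / c * (r / R) := by positivity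
    calc ∫ y in ball x r, ‖W y‖ ≤ 1 * ∫ y in ball x R, ‖W y‖ := by rw [one_mul]; exact h1
      _ ≤ (8 * C0 ^ 2 * K / c + 16 * C0) * (r / R) * ∫ y in ball x R, ‖W y‖ := by
        apply mul_le_mul_of_nonneg_right _ hWn
        linarith
  · -- the test function
    set ζ := zt x e r R1 C0 with hζ
    have hsm : ContDiff ℝ ∞ ζ := zt_contDiff x e r R1 C0
    have hsub : Function.support ζ ⊆ closedBall x (5 * (C0 * R1)) := fun y hy => by
      rw [mem_closedBall, dist_eq_norm]
      exact zt_support hr hcase hC1 hy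
    have htsub : tsupport ζ ⊆ closedBall x (5 * (C0 * R1)) :=
      closure_minimal hsub isClosed_closedBall
    have h58 : 5 * (C0 * R1) < R := by
      have : C0 * R1 = R / 8 := by rw [hR1]; field_simp
      rw [this]; linarith
    have hballs : tsupport ζ ⊆ ball x R := htsub.trans (closedBall_subset_ball h58)
    have hcs : HasCompactSupport ζ :=
      (isCompact_closedBall x _).of_isClosed_subset (isClosed_tsupport ζ) htsub
    have h0 := hdiv ζ hsm hcs hballs
    have h0' : ∫ y, fderiv ℝ ζ y (W y) = 0 := by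
      rw [← h0]; congr 1; funext y; exact (sum_ev _ _).symm
    have h0'' : ∫ y in ball x R, fderiv ℝ ζ y (W y) = 0 := by
      rw [← h0']
      apply setIntegral_eq_integral_of_forall_compl_eq_zero
      intro y hy
      have : y ∉ tsupport ζ := fun h => hy (hballs h)
      have h2 : fderiv ℝ ζ y = 0 := by
        have h3 : y ∉ Function.support (fderiv ℝ ζ) := fun h => this (support_fderiv_subset ℝ h)
        simpa using h3
      rw [h2]; rfl
    -- integrability
    have hdc : Continuous (fderiv ℝ ζ) := hsm.continuous_fderiv (by simp)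
    obtain ⟨B, hB⟩ := (hcs.fderiv (𝕜 := ℝ)).exists_bound_of_continuous hdc
    have hint : IntegrableOn (fun y => fderiv ℝ ζ y (W y)) (ball x R) := by
      apply Integrable.mono' (hW.norm.const_mul B)
      · have h1 : AEStronglyMeasurable (fun y => (fderiv ℝ ζ y, W y)) (volume.restrict (ball x R)) :=
          hdc.aestronglyMeasurable.prodMk hW.aestronglyMeasurable
        have h2 : Continuous fun p : (E3 →L[ℝ] ℝ) × E3 => p.1 p.2 :=
          isBoundedBilinearMap_apply.continuous
        exact h2.comp_aestronglyMeasurable h1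
      · refine Filter.Eventually.of_forall fun y => ?_
        exact ((fderiv ℝ ζ y).le_opNorm (W y)).trans
          (mul_le_mul_of_nonneg_right (hB y) (norm_nonneg _))
    have hWr : IntegrableOn W (ball x r) := hW.mono_set (ball_subset_ball hrR)
    have hin : IntegrableOn (fun y => ⟪e, W y⟫_ℝ) (ball x r) := hWr.const_inner e
    have hind : IntegrableOn ((ball x r).indicator fun y => c / r * ⟪e, W y⟫_ℝ) (ball x R) := by
      rw [integrableOn_indicator_iff measurableSet_ball, inter_eq_left.2 (ball_subset_ball hrR)]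
      exact hin.const_mul _
    have hae : ∀ᵐ y ∂(volume.restrict (ball x R)),
        (ball x r).indicator (fun y => c / r * ⟪e, W y⟫_ℝ) y - K / R1 * ‖W y‖ ≤
          fderiv ℝ ζ y (W y) := by
      rw [ae_restrict_iff' measurableSet_ball]
      filter_upwards [hcone] with y hy hyb
      have h1 := hy hyb
      have h2 : ‖W y‖ ≤ C0 * ⟪e, W y⟫_ℝ := by
        rw [hC0, div_mul_eq_mul_div, one_mul, le_div_iff₀ hκ]
        linarith
      have h3 := zt_lower (x := x) hK he hr hcase hC1 (y := y) h2
      refine le_trans (le_of_eq ?_) h3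
      congr 1
    have hmono := integral_mono_ae (hind.sub (hW.norm.const_mul (K / R1))) hint hae
    have hs1 : ∫ y in ball x R, (((ball x r).indicator (fun y => c / r * ⟪e, W y⟫_ℝ)) -
        fun y => K / R1 * ‖W y‖) y =
        (c / r * ∫ y in ball x r, ⟪e, W y⟫_ℝ) - K / R1 * ∫ y in ball x R, ‖W y‖ := by
      simp only [Pi.sub_apply]
      rw [integral_sub hind (hW.norm.const_mul (K / R1)), integral_const_mul,
        setIntegral_indicator measurableSet_ball, inter_eq_right.2 (ball_subset_ball hrR)]
      rw [integral_const_mul]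
    rw [hs1, h0''] at hmono
    -- conclusion
    have hfin : ∫ y in ball x r, ‖W y‖ ≤ C0 * ∫ y in ball x r, ⟪e, W y⟫_ℝ := by
      rw [← integral_const_mul]
      apply integral_mono_ae hWr.norm (hin.const_mul C0)
      change ∀ᵐ y ∂(volume.restrict (ball x r)), ‖W y‖ ≤ C0 * ⟪e, W y⟫_ℝ
      rw [ae_restrict_iff' measurableSet_ball]
      filter_upwards [hcone] with y hy hyb
      have h1 := hy (ball_subset_ball hrR hyb)
      rw [hC0, div_mul_eq_mul_div, one_mul, le_div_iff₀ hκ]
      linarith
    set J := ∫ y in ball x r, ⟪e, W y⟫_ℝ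
    set N := ∫ y in ball x R, ‖W y‖
    have h5 : c / r * J ≤ K / R1 * N := by linarith
    have h6 : J ≤ K / R1 * N * (r / c) := by
      have : J = c / r * J * (r / c) := by field_simp
      rw [this]
      exact mul_le_mul_of_nonneg_right h5 (by positivity)
    have h7 : C0 * (K / R1 * N * (r / c)) = 8 * C0 ^ 2 * K / c * (r / R) * N := by
      rw [hR1]; field_simp
    calc ∫ y in ball x r, ‖W y‖ ≤ C0 * J := hfin
      _ ≤ C0 * (K / R1 * N * (r / c)) := mul_le_mul_of_nonneg_left h6 hCp.le
      _ = 8 * C0 ^ 2 * K / c * (r / R) * N := h7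
      _ ≤ (8 * C0 ^ 2 * K / c + 16 * C0) * (r / R) * N := by
        apply mul_le_mul_of_nonneg_right _ hWn
        apply mul_le_mul_of_nonneg_right _ (by positivity)
        linarith

end Pool.Agent.Q150.HV
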